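import Mathlib

set_option autoImplicit false

namespace Pool.Agent.Results.MP_4a71d8_al.NotClosed

/-- The principal right ideal sS. -/
def ideal {S : Type} [Monoid S] (s : S) : Set S := {x | ∃ y, x = s * y}

/-- The core. -/
def Core {S : Type} [Monoid S] (a : S) : Prop := ∀ s : S, (ideal a ∩ ideal s).Nonempty

/-- Core irreducible elements. -/
def CI {S : Type} [Monoid S] (s : S) : Prop :=
  ¬ Core s ∧ ∀ t a : S, Core a → s = t * a → IsUnit a

def th (x : Fin 3) : Fin 3 := if x = 1 then 0 else x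

def tw (l : ℕ) (w : List (Fin 3)) : List (Fin 3) := if l = 0 then w else w.map th

@[ext] structure M where
  k : ℕ
  w : List (Fin 3)

lemma thth (w : List (Fin 3)) : (w.map th).map th = w.map th := by
  rw [List.map_map]; congr 1; funext x; revert x; decide

instance : Monoid M where
  mul x y := ⟨x.k + y.k, tw y.k x.w ++ y.w⟩
  one := ⟨0, []⟩
  mul_assoc x y z := by
    refine M.ext (add_assoc _ _ _) ?_
    change tw z.k (tw y.k x.w ++ y.w) ++ z.w = tw (y.k + z.k) x.w ++ (tw z.k y.w ++ z.w)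
    unfold tw
    by_cases h1 : y.k = 0 <;> by_cases h2 : z.k = 0 <;> simp [h1, h2, -List.map_map, thth]
  one_mul x := M.ext (zero_add _) (by
    change tw x.k [] ++ x.w = x.w
    simp [tw])
  mul_one x := M.ext rfl (by
    change tw 0 x.w ++ [] = x.w
    simp [tw])

lemma mem_ideal (x y : M) : y ∈ ideal x ↔ x.k ≤ y.k ∧ tw (y.k - x.k) x.w <+: y.w := by
  constructor
  · rintro ⟨z, rfl⟩
    change x.k ≤ x.k + z.k ∧ tw (x.k + z.k - x.k) x.w <+: tw z.k x.w ++ z.w
    rw [Nat.add_sub_cancel_left]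
    exact ⟨by omega, List.prefix_append _ _⟩
  · rintro ⟨h, v, hv⟩
    exact ⟨⟨y.k - x.k, v⟩, M.ext (by change y.k = x.k + (y.k - x.k); omega) hv.symm⟩

lemma trans_ideal {x y : M} (h : y ∈ ideal x) : ideal y ⊆ ideal x := by
  rintro _ ⟨z, rfl⟩
  obtain ⟨u, rfl⟩ := h
  exact ⟨u * z, mul_assoc _ _ _⟩

lemma lcm_aux (x y : M) (hk : x.k ≤ y.k) :
    ideal x ∩ ideal y = ∅ ∨ ∃ r, ideal x ∩ ideal y = ideal r := by
  have key : ∀ r, r ∈ ideal x → r ∈ ideal y → (∀ z, z ∈ ideal x → z ∈ ideal y → z ∈ ideal r) →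
      ∃ r, ideal x ∩ ideal y = ideal r := fun r h1 h2 h3 =>
    ⟨r, Set.Subset.antisymm (fun z hz => h3 z hz.1 hz.2)
      (Set.subset_inter (trans_ideal h1) (trans_ideal h2))⟩
  by_cases h1 : tw (y.k - x.k) x.w <+: y.w
  · exact Or.inr (key y ((mem_ideal _ _).2 ⟨hk, h1⟩) ⟨1, (mul_one _).symm⟩ fun z _ h => h)
  by_cases h2 : y.w <+: tw (y.k - x.k) x.w
  · refine Or.inr (key ⟨y.k, tw (y.k - x.k) x.w⟩ ((mem_ideal _ _).2 ⟨hk, List.prefix_rfl⟩)
      ((mem_ideal _ _).2 ⟨le_rfl, by simpa [tw] using h2⟩) fun z a b => ?_)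
    rw [mem_ideal] at a b ⊢
    refine ⟨b.1, ?_⟩
    have a2 := a.2
    by_cases e : z.k - y.k = 0
    · rw [show z.k = y.k by omega] at a2
      simpa [tw, e] using a2
    · have e2 : z.k - x.k ≠ 0 := by omega
      simp only [tw, e, e2, if_false] at a2 ⊢
      split_ifs
      · exact a2
      · rwa [thth]
  have big : ∀ z, z ∈ ideal x → z ∈ ideal y →
      y.k < z.k ∧ x.w.map th <+: z.w ∧ y.w.map th <+: z.w := by
    intro z a b
    rw [mem_ideal] at a b
    rcases b.1.eq_or_lt with e | e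
    · exfalso
      have a2 := a.2
      have b2 := b.2
      rw [← e] at a2 b2
      simp only [Nat.sub_self, tw, if_true] at b2
      rcases List.prefix_or_prefix_of_prefix a2 b2 with c | c
      · exact h1 c
      · exact h2 c
    · have e1 : z.k - y.k ≠ 0 := by omega
      have e2 : z.k - x.k ≠ 0 := by omega
      exact ⟨e, by simpa [tw, e2] using a.2, by simpa [tw, e1] using b.2⟩
  have e1 : y.k + 1 - y.k ≠ 0 := by omega
  have e2 : y.k + 1 - x.k ≠ 0 := by omega
  have fin : ∀ (w : List (Fin 3)) (z : M), y.k < z.k → w.map th <+: z.w →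
      z ∈ ideal (⟨y.k + 1, w.map th⟩ : M) := by
    intro w z a b
    refine (mem_ideal _ _).2 ⟨a, ?_⟩
    unfold tw
    split_ifs
    · exact b
    · rwa [thth]
  rcases Set.eq_empty_or_nonempty (ideal x ∩ ideal y) with he | ⟨z0, a0, b0⟩
  · exact Or.inl he
  obtain ⟨-, c1, c2⟩ := big z0 a0 b0
  rcases List.prefix_or_prefix_of_prefix c1 c2 with c | c
  · exact Or.inr (key ⟨y.k + 1, y.w.map th⟩
      ((mem_ideal _ _).2 ⟨by simp only; omega, by simpa [tw, e2] using c⟩)
      ((mem_ideal _ _).2 ⟨by simp only; omega, by simp [tw]⟩)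
      fun z a b => fin _ z (big z a b).1 (big z a b).2.2)
  · exact Or.inr (key ⟨y.k + 1, x.w.map th⟩
      ((mem_ideal _ _).2 ⟨by simp only; omega, by simp [tw, e2]⟩)
      ((mem_ideal _ _).2 ⟨by simp only; omega, by simpa [tw] using c⟩)
      fun z a b => fin _ z (big z a b).1 (big z a b).2.1)

lemma core_iff (x : M) : Core x ↔ x.w = [] := by
  constructor
  · intro h
    by_contra hw
    obtain ⟨a, v, hv⟩ := List.exists_cons_of_ne_nil hw
    obtain ⟨z, h1, h2⟩ := h ⟨x.k, [if a = 2 then 0 else 2]⟩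
    rw [mem_ideal] at h1 h2
    have h1 := h1.2
    have h2 := h2.2
    rw [hv] at h1
    simp only [tw] at h1 h2
    rcases hz : z.w with _ | ⟨c, u⟩
    · rw [hz] at h1; split_ifs at h1 <;> simp at h1
    · rw [hz] at h1 h2
      by_cases e : z.k - x.k = 0
      · simp only [e, if_true, List.cons_prefix_cons] at h1 h2
        exact (by decide : ∀ a : Fin 3, a ≠ if a = 2 then 0 else 2) a (h1.1.trans h2.1.symm)
      · simp only [e, if_false, List.map_cons, List.cons_prefix_cons] at h1 h2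
        exact (by decide : ∀ a : Fin 3, th a ≠ th (if a = 2 then 0 else 2)) a
          (h1.1.trans h2.1.symm)
  · intro h s
    refine ⟨⟨x.k + s.k, tw x.k s.w⟩, (mem_ideal _ _).2 ⟨by simp, by simp [h, tw]⟩,
      (mem_ideal _ _).2 ⟨by simp, by simp⟩⟩

lemma ci_of (c : Fin 3) : CI (⟨0, [c]⟩ : M) := by
  refine ⟨by simp [core_iff], fun t a ha h => ?_⟩
  have hk : 0 = t.k + a.k := congrArg M.k h
  have : a = 1 := M.ext (by change a.k = 0; omega) ((core_iff a).1 ha)
  rw [this]; exact isUnit_one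

instance : Countable M :=
  Function.Injective.countable (f := fun x : M => (x.k, x.w)) fun _ _ h =>
    M.ext (congrArg Prod.fst h) (congrArg Prod.snd h)

/-- A core factorable right LCM monoid whose core irreducible elements are not closed under
right LCMs. -/
theorem result : ∃ (S : Type) (_ : Monoid S) (_ : Countable S),
    (∀ x y z : S, x * y = x * z → y = z) ∧
    (∀ s t : S, ideal s ∩ ideal t = ∅ ∨ ∃ r, ideal s ∩ ideal t = ideal r) ∧
    (∀ x : S, ∃ s a, (CI s ∨ s = 1) ∧ Core a ∧ x = s * a) ∧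
    ∃ s t r : S, CI s ∧ CI t ∧ ideal s ∩ ideal t = ideal r ∧ ¬ CI r := by
  refine ⟨M, inferInstance, inferInstance, fun x y z h => ?_, fun s t => ?_, fun x => ?_,
    ⟨0, [0]⟩, ⟨0, [1]⟩, ⟨1, [0]⟩, ci_of 0, ci_of 1, ?_, fun h => ?_⟩
  · have h1 : x.k + y.k = x.k + z.k := congrArg M.k h
    have h2 : tw y.k x.w ++ y.w = tw z.k x.w ++ z.w := congrArg M.w h
    have h3 : y.k = z.k := by omega
    rw [h3] at h2
    exact M.ext h3 (List.append_cancel_left h2)
  · rcases le_total s.k t.k with h | h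
    · exact lcm_aux s t h
    · rw [Set.inter_comm]; exact lcm_aux t s h
  · by_cases h0 : x.w = []
    · exact ⟨1, x, Or.inr rfl, (core_iff x).2 h0, (one_mul x).symm⟩
    by_cases h1 : x.w.map th = x.w
    · refine ⟨⟨0, x.w⟩, ⟨x.k, []⟩, Or.inl ⟨by simpa [core_iff] using h0, fun t a ha h => ?_⟩,
        (core_iff _).2 rfl, M.ext (zero_add _).symm ?_⟩
      · have hk : 0 = t.k + a.k := congrArg M.k h
        have : a = 1 := M.ext (by change a.k = 0; omega) ((core_iff a).1 ha)
        rw [this]; exact isUnit_one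
      · change x.w = tw x.k x.w ++ []
        unfold tw; split_ifs <;> simp [h1]
    · refine ⟨x, 1, Or.inl ⟨by simpa [core_iff] using h0, fun t a ha h => ?_⟩,
        (core_iff _).2 rfl, (mul_one x).symm⟩
      have hw : x.w = tw a.k t.w ++ a.w := congrArg M.w h
      rw [(core_iff a).1 ha, List.append_nil] at hw
      by_cases e : a.k = 0
      · have : a = 1 := M.ext e ((core_iff a).1 ha)
        rw [this]; exact isUnit_one
      · simp only [tw, e, if_false] at hw
        exact absurd (by rw [hw, thth]) h1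
  · ext z
    simp only [Set.mem_inter_iff, mem_ideal, tw, Nat.sub_zero, zero_le, true_and]
    rcases hz : z.k with _ | k
    · simp only [if_true]
      constructor
      · rintro ⟨a, b⟩
        rcases List.prefix_or_prefix_of_prefix a b with c | c <;> simp at c
      · rintro ⟨a, -⟩; omega
    · simp [th]
  · have := h.2 ⟨0, [0]⟩ ⟨1, []⟩ ((core_iff _).2 rfl) rfl
    obtain ⟨b, hb⟩ := this.exists_right_inv
    have hk : 1 + b.k = 0 := congrArg M.k hb
    omega

end Pool.Agent.Results.MP_4a71d8_al.NotClosed
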